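import Mathlib
import Pool.Agent.H220.TS.Stm

/-!
S_omega (helper220, MP_ab13d2_an): the shape of the Koenigs domain.
-/

set_option autoImplicit false

open Set Filter Topology Metric
open scoped ComplexConjugate

namespace Pool.Agent.H703.TS

open Pool.Agent.H220.TS

/-- nonempty open order-connected sets of reals -/
theorem shape {A : Set ℝ} (hne : A.Nonempty) (ho : IsOpen A) (hc : A.OrdConnected) :
    A = univ ∨ (∃ a : ℝ, A = Ioi a) ∨ (∃ a : ℝ, A = Iio a) ∨ ∃ a b : ℝ, a < b ∧ A = Ioo a b := by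
  have hb : ∀ x ∈ A, (∃ y ∈ A, y < x) ∧ ∃ y ∈ A, x < y := by
    intro x hx
    obtain ⟨ε, hε, hsub⟩ := Metric.isOpen_iff.1 ho x hx
    refine ⟨⟨x - ε / 2, hsub ?_, by linarith⟩, ⟨x + ε / 2, hsub ?_, by linarith⟩⟩
    · rw [Metric.mem_ball, Real.dist_eq, abs_lt]
      constructor <;> linarith
    · rw [Metric.mem_ball, Real.dist_eq, abs_lt]
      constructor <;> linarith
  have hmid : ∀ x, (∃ y ∈ A, y < x) → (∃ y ∈ A, x < y) → x ∈ A := by
    rintro x ⟨y, hy, hyx⟩ ⟨z, hz, hxz⟩
    exact hc.out hy hz ⟨hyx.le, hxz.le⟩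
  by_cases hB : BddBelow A <;> by_cases hA : BddAbove A
  · right; right; right
    have h1 : A = Ioo (sInf A) (sSup A) := by
      ext x
      constructor
      · intro hx
        obtain ⟨⟨y, hy, hyx⟩, z, hz, hxz⟩ := hb x hx
        exact ⟨(csInf_le hB hy).trans_lt hyx, hxz.trans_le (le_csSup hA hz)⟩
      · rintro ⟨h1, h2⟩
        exact hmid x (exists_lt_of_csInf_lt hne h1) (exists_lt_of_lt_csSup hne h2)
    obtain ⟨x, hx⟩ := hne
    have h2 : x ∈ Ioo (sInf A) (sSup A) := by
      rw [← h1]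
      exact hx
    exact ⟨_, _, h2.1.trans h2.2, h1⟩
  · right; left
    refine ⟨sInf A, ?_⟩
    ext x
    constructor
    · intro hx
      obtain ⟨⟨y, hy, hyx⟩, -⟩ := hb x hx
      exact (csInf_le hB hy).trans_lt hyx
    · intro h1
      exact hmid x (exists_lt_of_csInf_lt hne h1) (not_bddAbove_iff.1 hA x)
  · right; right; left
    refine ⟨sSup A, ?_⟩
    ext x
    constructor
    · intro hx
      obtain ⟨-, z, hz, hxz⟩ := hb x hx
      exact hxz.trans_le (le_csSup hA hz)
    · intro h1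
      exact hmid x (not_bddBelow_iff.1 hB x) (exists_lt_of_lt_csSup hne h1)
  · left
    ext x
    simp only [mem_univ, iff_true]
    exact hmid x (not_bddBelow_iff.1 hB x) (not_bddAbove_iff.1 hA x)

/-- the image of a univalent function is open -/
theorem image_open {h : ℂ → ℂ} (hd : DifferentiableOn ℂ h D) (hi : InjOn h D) :
    IsOpen (h '' D) := by
  have hD : IsOpen D := isOpen_ball
  have hp : IsPreconnected D := (convex_ball (0 : ℂ) 1).isPreconnected
  rcases (hd.analyticOnNhd hD).is_constant_or_isOpen hp with ⟨w, hw⟩ | h1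
  · exfalso
    have h0 : (0 : ℂ) ∈ D := by simp [D]
    have h2 : (1 / 2 : ℂ) ∈ D := by
      simp only [D, mem_ball_zero_iff]
      norm_num
    have h3 := hi h0 h2 ((hw 0 h0).trans (hw _ h2).symm)
    norm_num at h3
  · exact h1 D subset_rfl hD

theorem s_omega : S_omega := by
  intro φ h hφ hh
  obtain ⟨hd, hi, hk⟩ := hh
  have hp : IsPreconnected D := (convex_ball (0 : ℂ) 1).isPreconnected
  set A : Set ℝ := Complex.re '' (h '' D) with hA
  have hAo : IsOpen A := Complex.isOpenMap_re _ (image_open hd hi)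
  have hAc : A.OrdConnected :=
    ((hp.image h hd.continuousOn).image _ Complex.continuous_re.continuousOn).ordConnected
  have h0 : (0 : ℂ) ∈ D := by simp [D]
  have hAn : A.Nonempty := ⟨_, _, ⟨0, h0, rfl⟩, rfl⟩
  have hmem : ∀ w, w ∈ Omega h ↔ w.re ∈ A := by
    intro w
    constructor
    · rintro ⟨t, -, ht⟩
      refine ⟨_, ht, ?_⟩
      simp
    · rintro ⟨_, ⟨z, hz, rfl⟩, hre⟩
      refine ⟨|w.im - (h z).im|, abs_nonneg _, ?_⟩
      have hs : 0 ≤ (w.im - (h z).im) + |w.im - (h z).im| := by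
        have := neg_abs_le (w.im - (h z).im)
        linarith
      refine ⟨φ ((w.im - (h z).im) + |w.im - (h z).im|) z, hφ.maps _ hs hz, ?_⟩
      rw [hk _ hs z hz]
      apply Complex.ext
      · simp [hre]
      · simp
        ring
  rcases shape hAn hAo hAc with h1 | ⟨a, h1⟩ | ⟨a, h1⟩ | ⟨a, b, hab, h1⟩
  · left
    ext w
    rw [hmem, h1]
    simp
  · right; left
    refine ⟨a, ?_⟩
    ext w
    rw [hmem, h1]
    rfl
  · right; right; left
    refine ⟨a, ?_⟩
    ext w
    rw [hmem, h1]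
    rfl
  · right; right; right
    refine ⟨a, b, hab, ?_⟩
    ext w
    rw [hmem, h1]
    rfl

end Pool.Agent.H703.TS
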